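import Pool.Agent.H516.PCF.All

/-!
PCF GEN (helper261): generic points of a circle in a valued field.
-/

set_option autoImplicit false

namespace Pool.Agent.H261.PCF

open Polynomial Pool.Agent.H516.PCF

theorem gen (hNAB : S_NAB) : S_GEN := by
  intro F _ _ _ p w hp hw T hT a u₀ hu₀ r hr
  obtain ⟨w1, wneg, -, -, -, -, wadd, -, -, -, wroot, -⟩ := hNAB F p w hp hw
  classical
  have wprod : ∀ (s : Finset F) (f : F → F), (∀ x ∈ s, f x ≠ 0) →
      w (∏ x ∈ s, f x) = ∑ x ∈ s, w (f x) := by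
    intro s f
    induction s using Finset.induction_on with
    | empty => intro _; simp [w1]
    | insert b s hb ih =>
      intro h
      rw [Finset.prod_insert hb, Finset.sum_insert hb, hw.mul _ _ (h b (Finset.mem_insert_self b s))
        (Finset.prod_ne_zero_iff.2 fun x hx => h x (Finset.mem_insert_of_mem hx)),
        ih fun x hx => h x (Finset.mem_insert_of_mem hx)]
  have sets : ∀ n : ℕ, ∃ Y : Finset F, Y.card = n ∧ (∀ y ∈ Y, y ≠ 0 ∧ w y = 0) ∧
      ∀ y ∈ Y, ∀ y' ∈ Y, y ≠ y' → w (y - y') = 0 := by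
    intro n
    induction n with
    | zero => exact ⟨∅, by simp, by simp, by simp⟩
    | succ n ih =>
      obtain ⟨Y, hc, h1, h2⟩ := ih
      obtain ⟨z, hz⟩ : ∃ z : F, z * ∏ y ∈ Y, (z - y) = 1 := by
        have hmon : (X * ∏ y ∈ Y, (X - C y) : F[X]).Monic :=
          monic_X.mul (monic_prod_of_monic _ _ fun y _ => monic_X_sub_C y)
        have hdeg : 0 < (X * ∏ y ∈ Y, (X - C y) : F[X]).degree := by
          rw [degree_mul, degree_X]
          have : (∏ y ∈ Y, (X - C y) : F[X]).degree = (Y.card : ℕ) := by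
            rw [degree_prod]
            simp
          rw [this]
          norm_cast
          omega
        have hd : (X * ∏ y ∈ Y, (X - C y) - C 1 : F[X]).degree ≠ 0 := by
          rw [degree_sub_C hdeg]
          exact hdeg.ne'
        obtain ⟨z, hz⟩ := IsAlgClosed.exists_root _ hd
        refine ⟨z, ?_⟩
        rw [IsRoot.def, eval_sub, eval_mul, eval_X, eval_prod, eval_C, sub_eq_zero] at hz
        simpa using hz
      have hz0 : z ≠ 0 := by
        intro h
        rw [h, zero_mul] at hz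
        exact zero_ne_one hz
      have hp0 : ∏ y ∈ Y, (z - y) ≠ 0 := by
        intro h
        rw [h, mul_zero] at hz
        exact zero_ne_one hz
      have hne : ∀ y ∈ Y, z - y ≠ 0 := fun y hy => Finset.prod_ne_zero_iff.1 hp0 y hy
      have hsum : w z + ∑ y ∈ Y, w (z - y) = 0 := by
        rw [← wprod Y (fun y => z - y) hne, ← hw.mul _ _ hz0 hp0, hz, w1]
      have hz1 : 0 ≤ w z := by
        by_contra hlt
        rw [not_le] at hlt
        have : ∀ y ∈ Y, w (z - y) = w z := by
          intro y hy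
          rw [sub_eq_add_neg]
          refine (wadd z (-y) hz0 (neg_ne_zero.2 (h1 y hy).1) ?_).2
          rw [wneg y (h1 y hy).1, (h1 y hy).2]
          exact hlt
        rw [Finset.sum_congr rfl this, Finset.sum_const, nsmul_eq_mul] at hsum
        have h3 : (0 : ℝ) ≤ Y.card := by positivity
        nlinarith
      have hnn : ∀ y ∈ Y, 0 ≤ w (z - y) := by
        intro y hy
        have h3 := hw.add z (-y) hz0 (neg_ne_zero.2 (h1 y hy).1) (by
          rw [← sub_eq_add_neg]; exact hne y hy)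
        rw [wneg y (h1 y hy).1, (h1 y hy).2, ← sub_eq_add_neg] at h3
        exact (le_min hz1 le_rfl).trans h3
      have hs0 : 0 ≤ ∑ y ∈ Y, w (z - y) := Finset.sum_nonneg hnn
      have hwz : w z = 0 := by linarith
      have hs1 : ∑ y ∈ Y, w (z - y) = 0 := by linarith
      have hall := (Finset.sum_eq_zero_iff_of_nonneg hnn).1 hs1
      have hzY : z ∉ Y := fun h => hne z h (sub_self z)
      refine ⟨insert z Y, ?_, ?_, ?_⟩
      · rw [Finset.card_insert_of_notMem hzY, hc]
      · intro y hy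
        rcases Finset.mem_insert.1 hy with rfl | hy
        · exact ⟨hz0, hwz⟩
        · exact h1 y hy
      · intro y hy y' hy' hyy
        rcases Finset.mem_insert.1 hy with h | hy
        · rcases Finset.mem_insert.1 hy' with h' | hy'
          · exact absurd (h.trans h'.symm) hyy
          · rw [h]; exact hall y' hy'
        · rcases Finset.mem_insert.1 hy' with h' | hy'
          · rw [h', ← neg_sub, wneg _ (hne y hy)]
            exact hall y hy
          · exact h2 y hy y' hy' hyy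
  -- the roots of unity
  have hζ0 : ∀ ζ : F, ζ ^ r = 1 → ζ ≠ 0 := by
    intro ζ h h0
    rw [h0, zero_pow hr.ne'] at h
    exact zero_ne_one h
  let Z : Finset F := Polynomial.nthRootsFinset r (1 : F)
  have hZ : ∀ ζ : F, ζ ∈ Z ↔ ζ ^ r = 1 := fun ζ => Polynomial.mem_nthRootsFinset hr 1
  let T' : Finset F := hT.toFinset
  obtain ⟨Y, hYc, hY1, hY2⟩ := sets (T'.card * Z.card + 1)
  let bad : F → F → F → Prop := fun s ζ y => s ≠ a ∧ w (a - s) = w u₀ ∧
    (a + u₀ * y * ζ - s = 0 ∨ w (a + u₀ * y * ζ - s) ≠ w u₀)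
  have hbad : ∀ s ζ, ζ ^ r = 1 → (Y.filter (bad s ζ)).card ≤ 1 := by
    intro s ζ hζ
    rw [Finset.card_le_one]
    intro y hy y' hy'
    rw [Finset.mem_filter] at hy hy'
    obtain ⟨hyY, hsa, hws, hyb⟩ := hy
    obtain ⟨hyY', -, -, hyb'⟩ := hy'
    by_contra hyy
    have hz0 := hζ0 ζ hζ
    have hy0 := (hY1 y hyY).1
    have hy0' := (hY1 y' hyY').1
    have hd0 : y - y' ≠ 0 := sub_ne_zero.2 hyy
    have has : a - s ≠ 0 := sub_ne_zero.2 (Ne.symm hsa)
    have wm : ∀ x : F, x ≠ 0 → w x = 0 → u₀ * x * ζ ≠ 0 ∧ w (u₀ * x * ζ) = w u₀ := by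
      intro x hx hwx
      refine ⟨mul_ne_zero (mul_ne_zero hu₀ hx) hz0, ?_⟩
      rw [hw.mul _ _ (mul_ne_zero hu₀ hx) hz0, hw.mul _ _ hu₀ hx, hwx, wroot ζ r hr hζ]
      ring
    obtain ⟨hD0, hDw⟩ := wm (y - y') hd0 (hY2 y hyY y' hyY' hyy)
    set A := a + u₀ * y * ζ - s with hA
    set B := a + u₀ * y' * ζ - s with hB
    have hAB : A - B = u₀ * (y - y') * ζ := by rw [hA, hB]; ring
    have hA' : A = u₀ * y * ζ + (a - s) := by rw [hA]; ring
    have hB' : B = u₀ * y' * ζ + (a - s) := by rw [hB]; ring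
    rcases hyb with hA0 | hAw
    · rcases hyb' with hB0 | hBw
      · rw [hA0, hB0, sub_zero] at hAB
        exact hD0 hAB.symm
      · apply hBw
        have hBe : B = -(u₀ * (y - y') * ζ) := by rw [← hAB, hA0]; ring
        rw [hBe, wneg _ hD0, hDw]
    · by_cases hB0 : B = 0
      · apply hAw
        rw [← hDw, ← hAB, hB0, sub_zero]
      · by_cases hA0 : A = 0
        · rcases hyb' with h | h
          · exact hB0 h
          · apply h
            have hBe : B = -(u₀ * (y - y') * ζ) := by rw [← hAB, hA0]; ring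
            rw [hBe, wneg _ hD0, hDw]
        · have hBw : w B ≠ w u₀ := by
            rcases hyb' with h | h
            · exact absurd h hB0
            · exact h
          have hBge : w u₀ ≤ w B := by
            obtain ⟨e0, ew⟩ := wm y' hy0' (hY1 y' hyY').2
            have := hw.add _ _ e0 has (by rw [← hB']; exact hB0)
            rw [← hB', ew, hws, min_self] at this
            exact this
          have hBgt : w u₀ < w B := lt_of_le_of_ne hBge (Ne.symm hBw)
          apply hAw
          have hsumAB : A = u₀ * (y - y') * ζ + B := by rw [← hAB]; ring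
          rw [hsumAB, (wadd _ _ hD0 hB0 (by rw [hDw]; exact hBgt)).2, hDw]
  -- a good element
  obtain ⟨y, hyY, hy⟩ : ∃ y ∈ Y, ∀ s ∈ T', ∀ ζ ∈ Z, ¬ bad s ζ y := by
    by_contra hcon
    push Not at hcon
    have hsub : Y ⊆ (T' ×ˢ Z).biUnion fun x => Y.filter (bad x.1 x.2) := by
      intro y hy
      obtain ⟨s, hs, ζ, hζ, hb⟩ := hcon y hy
      rw [Finset.mem_biUnion]
      exact ⟨(s, ζ), Finset.mem_product.2 ⟨hs, hζ⟩, Finset.mem_filter.2 ⟨hy, hb⟩⟩
    have h1 := Finset.card_le_card hsub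
    have h2 : ((T' ×ˢ Z).biUnion fun x => Y.filter (bad x.1 x.2)).card ≤ (T' ×ˢ Z).card * 1 := by
      apply Finset.card_biUnion_le_card_mul
      intro x hx
      exact hbad x.1 x.2 ((hZ x.2).1 (Finset.mem_product.1 hx).2)
    rw [Finset.card_product, mul_one] at h2
    omega
  obtain ⟨hy0, hyw⟩ := hY1 y hyY
  have hu0 : u₀ * y ≠ 0 := mul_ne_zero hu₀ hy0
  have huw : w (u₀ * y) = w u₀ := by rw [hw.mul _ _ hu₀ hy0, hyw, add_zero]
  refine ⟨u₀ * y, hu0, huw, ?_⟩
  intro ζ hζ s hs
  have hz0 := hζ0 ζ hζ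
  have hx0 : u₀ * y * ζ ≠ 0 := mul_ne_zero hu0 hz0
  have hxw : w (u₀ * y * ζ) = w u₀ := by
    rw [hw.mul _ _ hu0 hz0, huw, wroot ζ r hr hζ, add_zero]
  have hnb := hy s (hT.mem_toFinset.2 hs) ζ ((hZ ζ).2 hζ)
  unfold mn
  by_cases has : a = s
  · rw [if_pos has]
    subst has
    refine ⟨?_, ?_⟩
    · intro h
      apply hx0
      have : a + u₀ * y * ζ = a + 0 := by rw [h, add_zero]
      exact add_left_cancel this
    · rw [add_sub_cancel_left, hxw]
  · rw [if_neg has]
    have has0 : a - s ≠ 0 := sub_ne_zero.2 has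
    have he : a + u₀ * y * ζ - s = u₀ * y * ζ + (a - s) := by ring
    have he' : a + u₀ * y * ζ - s = (a - s) + u₀ * y * ζ := by ring
    rcases lt_trichotomy (w (a - s)) (w u₀) with h | h | h
    · obtain ⟨k1, k2⟩ := wadd (a - s) (u₀ * y * ζ) has0 hx0 (by rw [hxw]; exact h)
      rw [← he'] at k1 k2
      exact ⟨sub_ne_zero.1 k1, by rw [k2, min_eq_left h.le]⟩
    · have hgood : ¬ (a + u₀ * y * ζ - s = 0 ∨ w (a + u₀ * y * ζ - s) ≠ w u₀) := by
        intro hh
        exact hnb ⟨Ne.symm has, h, hh⟩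
      push Not at hgood
      exact ⟨sub_ne_zero.1 hgood.1, by rw [hgood.2, h, min_self]⟩
    · obtain ⟨k1, k2⟩ := wadd (u₀ * y * ζ) (a - s) hx0 has0 (by rw [hxw]; exact h)
      rw [← he] at k1 k2
      exact ⟨sub_ne_zero.1 k1, by rw [k2, hxw, min_eq_right h.le]⟩

end Pool.Agent.H261.PCF
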